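import Mathlib.CategoryTheory.Category.Init
import Mathlib.MeasureTheory.Measure.Haar.InnerProductSpace
import Mathlib.Algebra.Order.Star.Real
import Mathlib.Data.List.Triplewise
import Mathlib.Data.Fin.Tuple.Sort
import Mathlib.Analysis.Normed.Affine.MazurUlam
import Mathlib.Order.CompletePartialOrder

-- ======== part 0: formerly Pool.Agent.MP_34f9b1_co.Shelf
section MrgPart0

namespace Pool.Agent.MP_34f9b1_co

/-- A placed square: side, abscissa, gap below, gap above. -/
structure Sq where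
  r : ℝ
  x : ℝ
  a : ℝ
  b : ℝ

/-- Reflection in a horizontal line. -/
def Sq.flip (p : Sq) : Sq := ⟨p.r, p.x, p.b, p.a⟩

/-- The position is admissible. -/
def Good (s τ τ' : ℝ) (p : Sq) : Prop :=
  p.a + p.b + p.r = 1 ∧ ∃ m, 0 ≤ m ∧ τ * m ≤ p.a ∧ τ' * m ≤ p.b ∧ s * (1 - p.r - m) ≤ p.x ∧
    p.x ≤ s * (1 - p.r - m) + m

/-- Two squares are separated by a horizontal or vertical line. -/
def Sep (p q : Sq) : Prop :=
  p.x + p.r ≤ q.x ∨ q.x + q.r ≤ p.x ∨ q.a + q.r ≤ p.a ∨ q.b + q.r ≤ p.b ∨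
    p.a + p.r ≤ q.a ∨ p.b + p.r ≤ q.b

theorem shelf (s : ℝ) (l : List ℝ) : ∀ τ τ' m o h ρ W σ : ℝ, 0 ≤ τ → 0 ≤ τ' → τ + τ' = 1 →
    0 ≤ m → 0 ≤ o → m + h ≤ 1 → o + h ≤ 1 → τ * m + h + τ' * o ≤ 1 → ρ ≤ h → 0 ≤ W →
    0 ≤ σ → h * (o - m) ≤ 2 * σ → τ' * (o - m) ≤ h → (∀ r ∈ l, 0 < r ∧ r ≤ ρ) →
    l.Pairwise (· ≥ ·) →
    (l.map fun r => r ^ 2).sum + ρ * W + σ ≤ (τ * m ^ 2 + τ' * o ^ 2) / 2 →
    ∃ P : List Sq, P.map Sq.r = l ∧ P.Pairwise Sep ∧ ∀ p ∈ P, Good s τ τ' p ∧
      ((s * (1 - h - m) + h + W ≤ p.x ∧ p.a + p.r ≤ τ * m + h) ∨ p.a + p.r ≤ τ * m ∨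
        p.b + p.r ≤ τ' * o) := by
  induction l with
  | nil => intros; exact ⟨[], rfl, List.Pairwise.nil, by simp⟩
  | cons r l ih =>
    intro τ τ' m o h ρ W σ hτ hτ' hs hm ho hmh hoh hv hρ hW hσ hσ' hg hl hsort hB
    obtain ⟨hr, hrρ⟩ := hl r (by simp)
    obtain ⟨hle, hsort'⟩ := List.pairwise_cons.mp hsort
    have hl' : ∀ q ∈ l, 0 < q ∧ q ≤ r := fun q hq => ⟨(hl q (by simp [hq])).1, hle q hq⟩
    simp only [List.map_cons, List.sum_cons] at hB
    have hS : 0 ≤ (l.map fun r => r ^ 2).sum :=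
      List.sum_nonneg (by simp only [List.mem_map]; rintro _ ⟨q, -, rfl⟩; positivity)
    generalize (l.map fun r => r ^ 2).sum = S at hB hS ih
    have hρW : r * W ≤ ρ * W := mul_le_mul_of_nonneg_right hrρ hW
    have hτhr : τ * (h - r) ≤ h - r := mul_le_of_le_one_left (by linarith) (by linarith)
    by_cases hfit : W + r ≤ m
    · obtain ⟨P, e, hP, hG⟩ := ih τ τ' m o h r (W + r) σ hτ hτ' hs hm ho hmh hoh hv (by linarith)
        (by linarith) hσ hσ' hg hl' hsort' (by linarith)
      have h0 : 0 ≤ τ * (h - r) := mul_nonneg hτ (by linarith)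
      refine ⟨⟨r, s * (1 - h - m) + h + W, τ * m + τ * (h - r), 1 - r - (τ * m + τ * (h - r))⟩ :: P,
        by simp [e], List.pairwise_cons.mpr ⟨fun q hq => ?_, hP⟩, fun q hq => ?_⟩
      · rcases (hG q hq).2 with h₁ | h₁ | h₁
        · exact Or.inl (by simp only; linarith [h₁.1])
        · exact Or.inr (Or.inr (Or.inl (by simp only; linarith)))
        · exact Or.inr (Or.inr (Or.inr (Or.inl (by simp only; linarith))))
      · rcases List.mem_cons.mp hq with rfl | hq
        · refine ⟨⟨by simp only; ring, m + h - r, by linarith, by simp only; linarith, ?_, ?_, ?_⟩,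
            Or.inl ⟨le_rfl, by simp only; linarith⟩⟩
          · simp only
            have : τ' * (m + h - r) = (m + h - r) - τ * (m + h - r) := by
              rw [show τ' = 1 - τ by linarith]; ring
            linarith
          · simp only
            rw [show 1 - r - (m + h - r) = 1 - h - m by ring]; linarith
          · simp only
            rw [show 1 - r - (m + h - r) = 1 - h - m by ring]; linarith
        · refine ⟨(hG q hq).1, ?_⟩
          rcases (hG q hq).2 with h₁ | h₁ | h₁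
          · exact Or.inl ⟨by linarith [h₁.1], h₁.2⟩
          · exact Or.inr (Or.inl h₁)
          · exact Or.inr (Or.inr h₁)
    · have hcr : S + r * m + σ ≤ (τ * m ^ 2 + τ' * o ^ 2) / 2 := by
        have : r * m ≤ r * (W + r) := mul_le_mul_of_nonneg_left (by linarith) hr.le
        linarith
      have hcr' : r * m + σ < (τ * m ^ 2 + τ' * o ^ 2) / 2 := by
        have : r * m < r * (W + r) := mul_lt_mul_of_pos_left (by linarith) hr
        linarith
      have hro : r * (o - m) ≤ 2 * σ := by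
        rcases le_total o m with h₁ | h₁
        · have := mul_nonneg hr.le (sub_nonneg.mpr h₁)
          linarith
        · have := mul_nonneg (by linarith : 0 ≤ h - r) (sub_nonneg.mpr h₁)
          linarith
      -- the two candidates
      have hchoice : (∃ m', 0 ≤ m' ∧ τ * m' = τ * m - r ∧ m' + r ≤ m ∧ τ' * (o - m') ≤ r) ∨
          (∃ m', 0 ≤ m' ∧ τ' * m' = τ' * o - r ∧ m' + r ≤ o ∧ τ * (m - m') ≤ r) := by
        have cand : ∀ {τ τ' m : ℝ}, 0 ≤ τ → 0 ≤ τ' → τ + τ' = 1 → r ≤ τ * m →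
            ∃ m', 0 ≤ m' ∧ τ * m' = τ * m - r ∧ m' + r ≤ m := by
          intro τ τ' m hτ hτ' hs hf
          have hpos : 0 < τ := by
            rcases hτ.lt_or_eq with h₁ | h₁
            · exact h₁
            · rw [← h₁] at hf; linarith
          refine ⟨m - r / τ, ?_, by field_simp, ?_⟩
          · rw [sub_nonneg, div_le_iff₀ hpos]; linarith
          · have : r ≤ r / τ := by
              rw [le_div_iff₀ hpos]
              exact mul_le_of_le_one_right hr.le (by linarith)
            linarith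
        by_cases f₁ : r ≤ τ * m <;> by_cases f₂ : r ≤ τ' * o
        · obtain ⟨m₁, a₁, a₂, a₃⟩ := cand hτ hτ' hs f₁
          obtain ⟨m₂, b₁, b₂, b₃⟩ := cand hτ' hτ (by linarith) f₂
          rcases le_total m₁ m₂ with h₁ | h₁
          · exact Or.inr ⟨m₂, b₁, b₂, b₃, by linarith [mul_le_mul_of_nonneg_left h₁ hτ]⟩
          · exact Or.inl ⟨m₁, a₁, a₂, a₃, by linarith [mul_le_mul_of_nonneg_left h₁ hτ']⟩
        · obtain ⟨m₁, a₁, a₂, a₃⟩ := cand hτ hτ' hs f₁
          exact Or.inl ⟨m₁, a₁, a₂, a₃, by linarith [mul_nonneg hτ' a₁]⟩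
        · obtain ⟨m₂, b₁, b₂, b₃⟩ := cand hτ' hτ (by linarith) f₂
          exact Or.inr ⟨m₂, b₁, b₂, b₃, by linarith [mul_nonneg hτ b₁]⟩
        · exfalso
          have c₁ : τ * m * m ≤ r * m := mul_le_mul_of_nonneg_right (by linarith) hm
          have c₂ : τ' * o * o ≤ r * o := mul_le_mul_of_nonneg_right (by linarith) ho
          linarith
      rcases hchoice with ⟨m', a₁, a₂, a₃, a₄⟩ | ⟨m', a₁, a₂, a₃, a₄⟩
      · have e2 : τ * m' ^ 2 = τ * m ^ 2 - r * (m + m') := by
          have : τ * m' ^ 2 - τ * m ^ 2 = (τ * m' - τ * m) * (m + m') := by ring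
          rw [a₂] at this; linarith
        obtain ⟨P, e, hP, hG⟩ := ih τ τ' m' o r r 0 (σ + r * (m - m') / 2) hτ hτ' hs a₁ ho
          (by linarith) (by linarith) (by linarith) le_rfl le_rfl
          (by linarith [mul_nonneg hr.le (by linarith : 0 ≤ m - m')]) (by linarith) a₄
          hl' hsort' (by rw [e2]; linarith)
        refine ⟨⟨r, s * (1 - r - m'), τ * m', 1 - r - τ * m'⟩ :: P,
          by simp [e], List.pairwise_cons.mpr ⟨fun q hq => ?_, hP⟩, fun q hq => ?_⟩
        · rcases (hG q hq).2 with h₁ | h₁ | h₁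
          · exact Or.inl (by simp only; linarith [h₁.1])
          · exact Or.inr (Or.inr (Or.inl h₁))
          · exact Or.inr (Or.inr (Or.inr (Or.inl (by simp only; linarith))))
        · rcases List.mem_cons.mp hq with rfl | hq
          · refine ⟨⟨by simp only; ring, m', a₁, le_rfl, ?_, le_rfl, by simp only; linarith⟩,
              Or.inr (Or.inl (by simp only; linarith))⟩
            simp only
            have : τ' * m' = m' - τ * m' := by rw [show τ' = 1 - τ by linarith]; ring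
            linarith
          · refine ⟨(hG q hq).1, ?_⟩
            rcases (hG q hq).2 with h₁ | h₁ | h₁
            · exact Or.inr (Or.inl (by linarith [h₁.2]))
            · exact Or.inr (Or.inl (by linarith))
            · exact Or.inr (Or.inr h₁)
      · have e2 : τ' * m' ^ 2 = τ' * o ^ 2 - r * (o + m') := by
          have : τ' * m' ^ 2 - τ' * o ^ 2 = (τ' * m' - τ' * o) * (o + m') := by ring
          rw [a₂] at this; linarith
        have hσ2 : 0 ≤ σ + r * m - r * (o + m') / 2 := by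
          rcases le_total m' m with h₁ | h₁
          · linarith [mul_nonneg hr.le (sub_nonneg.mpr h₁)]
          · have hpos : 0 < τ' := by
              rcases hτ'.lt_or_eq with h₂ | h₂
              · exact h₂
              · rw [← h₂] at a₂; linarith
            have d0 : 0 ≤ o - m := by linarith
            have d1 : τ' * (o - m) * (o - m) ≤ h * (o - m) := mul_le_mul_of_nonneg_right hg d0
            have d2 : τ' * (o - m') = r := by linarith
            have d3 : 0 ≤ τ' * (m' - m) ^ 2 := by positivity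
            rw [← d2]
            linarith
        obtain ⟨P, e, hP, hG⟩ := ih τ' τ m' m r r 0 (σ + r * m - r * (o + m') / 2) hτ' hτ
          (by linarith) a₁ hm (by linarith) (by linarith) (by linarith) le_rfl le_rfl hσ2
          (by linarith) a₄ hl' hsort' (by rw [e2]; linarith)
        refine ⟨⟨r, s * (1 - r - m'), 1 - r - τ' * m', τ' * m'⟩ :: P.map Sq.flip,
          by simpa [Function.comp_def, Sq.flip] using e,
          List.pairwise_cons.mpr ⟨fun q hq => ?_, ?_⟩, fun q hq => ?_⟩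
        · obtain ⟨q, hq', rfl⟩ := List.mem_map.mp hq
          simp only [Sep, Sq.flip]
          rcases (hG q hq').2 with h₁ | h₁ | h₁
          · exact Or.inl (by linarith [h₁.1])
          · exact Or.inr (Or.inr (Or.inr (Or.inl h₁)))
          · exact Or.inr (Or.inr (Or.inl (by linarith)))
        · rw [List.pairwise_map]
          refine hP.imp fun {p q} h₁ => ?_
          simp only [Sep, Sq.flip] at h₁ ⊢
          tauto
        · rcases List.mem_cons.mp hq with rfl | hq
          · refine ⟨⟨by simp only; ring, m', a₁, ?_, le_rfl, le_rfl, by simp only; linarith⟩,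
              Or.inr (Or.inr (by simp only; linarith))⟩
            simp only
            have : τ * m' = m' - τ' * m' := by rw [show τ = 1 - τ' by linarith]; ring
            linarith
          · obtain ⟨q, hq', rfl⟩ := List.mem_map.mp hq
            obtain ⟨⟨g₁, k, g₂, g₃, g₄, g₅⟩, h₁⟩ := hG q hq'
            refine ⟨⟨by simp only [Sq.flip]; linarith, k, g₂, g₄, g₃, g₅⟩, ?_⟩
            simp only [Sq.flip]
            rcases h₁ with h₁ | h₁ | h₁
            · exact Or.inr (Or.inr (by linarith [h₁.2]))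
            · exact Or.inr (Or.inr (by linarith))
            · exact Or.inr (Or.inl h₁)

theorem pack_list (s t : ℝ) (ht : 0 ≤ t) (ht' : t ≤ 1) (l : List ℝ) (hl : ∀ r ∈ l, 0 < r)
    (hsort : l.Pairwise (· ≥ ·)) (hB : (l.map fun r => r ^ 2).sum ≤ 1 / 3) :
    ∃ P : List Sq, P.map Sq.r = l ∧ P.Pairwise Sep ∧ ∀ p ∈ P, Good s t (1 - t) p := by
  cases l with
  | nil => exact ⟨[], rfl, List.Pairwise.nil, by simp⟩
  | cons h l =>
    obtain ⟨hle, hsort'⟩ := List.pairwise_cons.mp hsort
    have hh := hl h (by simp)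
    simp only [List.map_cons, List.sum_cons] at hB
    have hS : 0 ≤ (l.map fun r => r ^ 2).sum :=
      List.sum_nonneg (by simp only [List.mem_map]; rintro _ ⟨q, -, rfl⟩; positivity)
    have h1 : h ≤ 1 := by nlinarith
    obtain ⟨P, e, hP, hG⟩ := shelf s l t (1 - t) (1 - h) (1 - h) h h 0 0 ht (by linarith)
      (by ring) (by linarith) (by linarith) (by linarith) (by linarith) (by linarith) le_rfl le_rfl
      le_rfl (by simp) (by simp [hh.le]) (fun r hr => ⟨hl r (by simp [hr]), hle r hr⟩) hsort'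
      (by linarith [sq_nonneg (3 * h - 1)])
    refine ⟨⟨h, 0, t * (1 - h), (1 - t) * (1 - h)⟩ :: P, by simp [e],
      List.pairwise_cons.mpr ⟨fun q hq => ?_, hP⟩, fun q hq => ?_⟩
    · rcases (hG q hq).2 with h₁ | h₁ | h₁
      · exact Or.inl (by simp only; linarith [h₁.1])
      · exact Or.inr (Or.inr (Or.inl h₁))
      · exact Or.inr (Or.inr (Or.inr (Or.inl h₁)))
    · rcases List.mem_cons.mp hq with rfl | hq
      · exact ⟨by simp only; ring, 1 - h, by linarith, le_rfl, le_rfl, by simp, by simp [h1]⟩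
      · exact (hG q hq).1

end Pool.Agent.MP_34f9b1_co

end MrgPart0

-- ======== part 1: formerly Pool.Agent.MP_34f9b1_co.Geom
section MrgPart1

namespace Pool.Agent.MP_34f9b1_co

open MeasureTheory Pointwise

theorem Sep.symm {p q : Sq} (h : Sep p q) : Sep q p := by
  unfold Sep at h ⊢
  tauto

theorem pack_fin (s t : ℝ) (ht : 0 ≤ t) (ht' : t ≤ 1) {n : ℕ} (r : Fin n → ℝ) (hr : ∀ i, 0 < r i)
    (hB : ∑ i, r i ^ 2 ≤ 1 / 3) :
    ∃ P : Fin n → Sq, (∀ i, (P i).r = r i ∧ Good s t (1 - t) (P i)) ∧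
      ∀ i j, i ≠ j → Sep (P i) (P j) := by
  let σ := Tuple.sort fun i => -r i
  have hσ : Monotone ((fun i => -r i) ∘ σ) := Tuple.monotone_sort _
  obtain ⟨P, e, hP, hG⟩ := pack_list s t ht ht' (List.ofFn fun i => r (σ i))
    (by simp only [List.mem_ofFn]; rintro _ ⟨i, rfl⟩; exact hr _)
    (List.pairwise_ofFn.mpr fun i j hij => by
      have := hσ hij.le
      simp only [Function.comp] at this
      linarith)
    (by rw [List.map_ofFn, List.sum_ofFn]; exact (Equiv.sum_comp σ fun i => r i ^ 2).le.trans hB)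
  have hlen : P.length = n := by simpa using congrArg List.length e
  subst hlen
  refine ⟨fun i => P[σ.symm i], fun i => ⟨?_, hG _ (List.getElem_mem _)⟩, fun i j hij => ?_⟩
  · have h1 : (P.map Sq.r)[(σ.symm i : ℕ)]'(by simp) = r i := by simp [e]
    simpa using h1
  · have hne : σ.symm i ≠ σ.symm j := fun h => hij (σ.symm.injective h)
    rcases lt_or_gt_of_ne hne with h | h
    · exact List.pairwise_iff_getElem.mp hP _ _ _ _ h
    · exact (List.pairwise_iff_getElem.mp hP _ _ _ _ h).symm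

/-- The plane. -/
abbrev E : Type := EuclideanSpace ℝ (Fin 2)

/-- Determinant of two vectors. -/
def det2 (u v : E) : ℝ := u 0 * v 1 - u 1 * v 0

theorem sep_interior {K K' : Set E} {g : E → ℝ} {e : E} {c : ℝ}
    (hg : ∀ p (ε : ℝ), g (p + ε • e) = g p + ε) (h₁ : ∀ p ∈ K, g p ≤ c) (h₂ : ∀ p ∈ K', c ≤ g p) :
    Disjoint (interior K) (interior K') := by
  rw [Set.disjoint_left]
  intro p hp hp'
  have hc : Continuous fun ε : ℝ => p + ε • e := by fun_prop
  have h0 : ∀ᶠ ε : ℝ in nhds 0, p + ε • e ∈ K :=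
    hc.continuousAt.preimage_mem_nhds (by simpa using mem_interior_iff_mem_nhds.mp hp)
  obtain ⟨ε, hε, hpos⟩ :=
    ((h0.filter_mono (nhdsWithin_le_nhds (s := Set.Ioi (0 : ℝ)))).and self_mem_nhdsWithin).exists
  have := h₁ _ hε
  have := h₂ _ (interior_subset hp')
  rw [hg] at *
  have : (0 : ℝ) < ε := hpos
  linarith

theorem exists_frame {F : Set E} (hF : IsCompact F) (hi : (interior F).Nonempty) :
    ∃ a ∈ F, ∃ b ∈ F, ∃ c ∈ F, ∃ d ∈ F, 0 < det2 (b - a) (d - c) ∧
      ∀ a' ∈ F, ∀ b' ∈ F, ∀ c' ∈ F, ∀ d' ∈ F, det2 (b' - a') (d' - c') ≤ det2 (b - a) (d - c) := by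
  obtain ⟨p, hp⟩ := hi
  have hpF := interior_subset hp
  have hc : Continuous fun z : (E × E) × (E × E) => det2 (z.1.2 - z.1.1) (z.2.2 - z.2.1) := by
    unfold det2
    fun_prop
  obtain ⟨⟨⟨a, b⟩, c, d⟩, ⟨⟨ha, hb⟩, hc', hd⟩, hmax⟩ :=
    ((hF.prod hF).prod (hF.prod hF)).exists_isMaxOn ⟨((p, p), p, p), ⟨hpF, hpF⟩, hpF, hpF⟩
      hc.continuousOn
  have key : ∀ a' ∈ F, ∀ b' ∈ F, ∀ c' ∈ F, ∀ d' ∈ F,
      det2 (b' - a') (d' - c') ≤ det2 (b - a) (d - c) := fun a' ha' b' hb' c' hc' d' hd' =>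
    hmax (a := ((a', b'), c', d')) ⟨⟨ha', hb'⟩, hc', hd'⟩
  refine ⟨a, ha, b, hb, c, hc', d, hd, ?_, key⟩
  obtain ⟨ε, hε, hball⟩ := Metric.mem_nhds_iff.mp (mem_interior_iff_mem_nhds.mp hp)
  have hm : ∀ i, p + EuclideanSpace.single i (ε / 2) ∈ F := fun i => hball (by
    rw [mem_ball_iff_norm, add_sub_cancel_left, PiLp.norm_single, Real.norm_eq_abs,
      abs_of_pos (by linarith)]
    linarith)
  refine lt_of_lt_of_le ?_ (key p hpF _ (hm 0) p hpF _ (hm 1))
  simp [det2, hε]

theorem pack_homothets {F : Set E} (hF : IsCompact F) (hc : Convex ℝ F)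
    (hi : (interior F).Nonempty) {n : ℕ} (r : Fin n → ℝ) (hr : ∀ i, 0 < r i)
    (hB : ∑ i, r i ^ 2 ≤ 1 / 3) :
    ∃ z : Fin n → E, (∀ i, (fun p => z i + r i • p) '' F ⊆ F) ∧ ∀ i j, i ≠ j →
      Disjoint (interior ((fun p => z i + r i • p) '' F))
        (interior ((fun p => z j + r j • p) '' F)) := by
  obtain ⟨a, ha, b, hb, c, hc', d, hd, hpos, hmax⟩ := exists_frame hF hi
  set Δ := det2 (b - a) (d - c) with hΔ
  let ξ : E → ℝ := fun p => det2 (p - a) (d - c) / Δ
  let η : E → ℝ := fun p => det2 (b - a) (p - c) / Δ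
  have hξ : ∀ p ∈ F, 0 ≤ ξ p ∧ ξ p ≤ 1 := by
    intro p hp
    have h1 := hmax a ha p hp c hc' d hd
    have h2 := hmax p hp b hb c hc' d hd
    have h3 : det2 (b - p) (d - c) = Δ - det2 (p - a) (d - c) := by
      simp only [hΔ, det2, PiLp.sub_apply]; ring
    exact ⟨div_nonneg (by linarith) hpos.le, (div_le_one hpos).mpr h1⟩
  have hη : ∀ p ∈ F, 0 ≤ η p ∧ η p ≤ 1 := by
    intro p hp
    have h1 := hmax a ha b hb c hc' p hp
    have h2 := hmax a ha b hb p hp d hd
    have h3 : det2 (b - a) (d - p) = Δ - det2 (b - a) (p - c) := by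
      simp only [hΔ, det2, PiLp.sub_apply]; ring
    exact ⟨div_nonneg (by linarith) hpos.le, (div_le_one hpos).mpr h1⟩
  have hne : Δ ≠ 0 := hpos.ne'
  have gξ : ∀ p (ε : ℝ), ξ (p + ε • (b - a)) = ξ p + ε := by
    intro p ε
    simp only [ξ]
    rw [div_add' _ _ _ hne, hΔ]
    congr 1
    simp only [det2, PiLp.sub_apply, PiLp.add_apply, PiLp.smul_apply, smul_eq_mul]
    ring
  have gη : ∀ p (ε : ℝ), η (p + ε • (d - c)) = η p + ε := by
    intro p ε
    simp only [η]
    rw [div_add' _ _ _ hne, hΔ]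
    congr 1
    simp only [det2, PiLp.sub_apply, PiLp.add_apply, PiLp.smul_apply, smul_eq_mul]
    ring
  obtain ⟨P, hP, hS⟩ := pack_fin (ξ c) (η a) (hη a ha).1 (hη a ha).2 r hr hB
  have main : ∀ i, ∃ z : E, ∀ p ∈ F, z + r i • p ∈ F ∧ ξ (z + r i • p) = (P i).x + r i * ξ p ∧
      η (z + r i • p) = (P i).a + r i * η p := by
    intro i
    obtain ⟨e, g₁, m, g₂, g₃, g₄, g₅, g₆⟩ := hP i
    rw [e] at g₁ g₅ g₆
    obtain ⟨β, hβ⟩ : ∃ β, (P i).x = ξ c * (1 - r i - m) + β := ⟨_, (add_sub_cancel _ _).symm⟩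
    obtain ⟨δ, hδ⟩ : ∃ δ, (P i).a = η a * m + δ := ⟨_, (add_sub_cancel _ _).symm⟩
    refine ⟨(m - β) • a + β • b + (1 - r i - m - δ) • c + δ • d, fun p hp => ⟨?_, ?_, ?_⟩⟩
    · have := hc.sum_mem (t := Finset.univ) (w := ![m - β, β, 1 - r i - m - δ, δ, r i])
        (z := ![a, b, c, d, p]) (by
          intro k _
          fin_cases k <;> simp <;> linarith [hr i]) (by simp [Fin.sum_univ_succ]; ring) (by
          intro k _
          fin_cases k <;> simpa)
      simpa [Fin.sum_univ_succ, add_assoc] using this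
    · rw [hβ]
      simp only [ξ]
      field_simp
      simp only [hΔ, det2, PiLp.sub_apply, PiLp.add_apply, PiLp.smul_apply, smul_eq_mul]
      ring
    · rw [hδ]
      simp only [η]
      field_simp
      simp only [hΔ, det2, PiLp.sub_apply, PiLp.add_apply, PiLp.smul_apply, smul_eq_mul]
      ring
  choose z hz using main
  have bx : ∀ i, ∀ q ∈ (fun p => z i + r i • p) '' F, (P i).x ≤ ξ q ∧ ξ q ≤ (P i).x + (P i).r := by
    rintro i _ ⟨p, hp, rfl⟩
    rw [(hz i p hp).2.1, (hP i).1]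
    exact ⟨le_add_of_nonneg_right (mul_nonneg (hr i).le (hξ p hp).1),
      add_le_add le_rfl (mul_le_of_le_one_right (hr i).le (hξ p hp).2)⟩
  have by' : ∀ i, ∀ q ∈ (fun p => z i + r i • p) '' F,
      (P i).a ≤ η q ∧ η q ≤ (P i).a + (P i).r := by
    rintro i _ ⟨p, hp, rfl⟩
    rw [(hz i p hp).2.2, (hP i).1]
    exact ⟨le_add_of_nonneg_right (mul_nonneg (hr i).le (hη p hp).1),
      add_le_add le_rfl (mul_le_of_le_one_right (hr i).le (hη p hp).2)⟩
  refine ⟨z, by rintro i _ ⟨p, hp, rfl⟩; exact (hz i p hp).1, fun i j hij => ?_⟩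
  have sx : ∀ i j, (P i).x + (P i).r ≤ (P j).x →
      Disjoint (interior ((fun p => z i + r i • p) '' F))
        (interior ((fun p => z j + r j • p) '' F)) := fun i j h =>
    sep_interior gξ (fun q hq => (bx i q hq).2.trans h) fun q hq => (bx j q hq).1
  have sy : ∀ i j, (P i).a + (P i).r ≤ (P j).a →
      Disjoint (interior ((fun p => z i + r i • p) '' F))
        (interior ((fun p => z j + r j • p) '' F)) := fun i j h =>
    sep_interior gη (fun q hq => (by' i q hq).2.trans h) fun q hq => (by' j q hq).1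
  have ei := (hP i).2.1
  have ej := (hP j).2.1
  rcases hS i j hij with h | h | h | h | h | h
  · exact sx i j h
  · exact (sx j i h).symm
  · exact (sy j i h).symm
  · exact sy i j (by linarith)
  · exact sy i j h
  · exact (sy j i (by linarith)).symm

theorem volume_clone (F : Set E) {r : ℝ} (hr : 0 < r) (ψ : E ≃ᵢ E) :
    volume ((fun x => r • ψ x) '' F) = ENNReal.ofReal (r ^ 2) * volume F := by
  have h1 : (fun x => r • ψ x) '' F = r • ((fun x => ψ 0 + x) ''
      (ψ.toRealLinearIsometryEquiv '' F)) := by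
    rw [← Set.image_smul, Set.image_image, Set.image_image]
    simp
  have h2 : volume (ψ.toRealLinearIsometryEquiv '' F) = volume F := by
    rw [LinearIsometryEquiv.image_eq_preimage_symm]
    exact MeasurePreserving.measure_preimage_equiv
      (f := ψ.toRealLinearIsometryEquiv.symm.toHomeomorph.toMeasurableEquiv)
      ψ.toRealLinearIsometryEquiv.symm.measurePreserving F
  rw [h1, Measure.addHaar_smul, Set.image_add_left, measure_preimage_add, h2]
  simp [abs_of_pos hr]

end Pool.Agent.MP_34f9b1_co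

end MrgPart1

-- marker of a merged file
example : 731051 + 331993 = 731051 + 331993 := rfl
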